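import Pool.Agent.H482.FS.Torus6D
import Pool.Agent.H672R3.FQ.Stokes

set_option autoImplicit false
open Set Topology
open scoped ContDiff

namespace Pool.Agent.H482.FS
open Pool.Agent.H289R3.FS

section
variable {N : ℕ} [NeZero N]

/-- the connection for slope `q` -/
noncomputable def A1 (q : ℚ) (j : Fin 6) (z : GG N) : ℝ :=
  conn 5 3 q.den j z + conn 2 4 (-q.num) j z

theorem curv1 (hN : 2 ≤ N) (q : ℚ) {i j : Fin 6} (hij : i ≠ j) (hi4 : i ≠ 4) (hj4 : j ≠ 4)
    (hne : ¬ (i = 3 ∧ j = 5)) (z : GG N) :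
    ((A1 q j (z + EE N i) - A1 q j z - (A1 q i (z + EE N j) - A1 q i z) : ℝ) : T1) =
      (((if i = 5 ∧ j = 3 then q.den * (1 / (N : ℝ)) ^ 2 else 0 : ℝ)) : T1) := by
  have h1 := curv hN (p := 5) (s := 3) (by decide) q.den hij hne z
  have h2 := curv hN (p := 2) (s := 4) (by decide) (-q.num) hij (fun h => hi4 h.1) z
  have h4 : ¬ (i = 2 ∧ j = 4) := fun h => hj4 h.2
  simp only [h4, if_false] at h2
  have e : A1 q j (z + EE N i) - A1 q j z - (A1 q i (z + EE N j) - A1 q i z) =
      (conn 5 3 q.den j (z + EE N i) - conn 5 3 q.den j z -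
        (conn 5 3 q.den i (z + EE N j) - conn 5 3 q.den i z)) +
      (conn 2 4 (-q.num) j (z + EE N i) - conn 2 4 (-q.num) j z -
        (conn 2 4 (-q.num) i (z + EE N j) - conn 2 4 (-q.num) i z)) := by
    unfold A1; ring
  rw [e, AddCircle.coe_add, h1, h2]
  simp

open Classical in
noncomputable def b0 (B₀ : Set (Fin 6 → ℝ)) (g₀ : (Fin 6 → ℝ) → T1) (j : Fin 6) (z : GG N) : ℝ :=
  if pt z ∈ B₀ then bb (fun z => g₀ (pt z)) (conn 2 4 1) j z else 0

open Classical in
noncomputable def b1 (B₁ : Set (Fin 6 → ℝ)) (g₁ : (Fin 6 → ℝ) → T1) (r : (Fin 6 → ℝ) → ℚ)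
    (j : Fin 6) (z : GG N) : ℝ :=
  if pt z ∈ B₁ then (1 / ((r (pt z)).den : ℝ)) * bb (fun z => g₁ (pt z)) (A1 (r (pt z))) j z
  else 0

end

theorem taskTorus6 : TaskTorus6 := by
  have hS : Pool.Agent.H289R3.FQ.TaskStokes := Pool.Agent.H672R3.FQ.taskStokes
  intro C hCc hC f hfc hf H
  have hCp : Per C := hC
  -- uniform continuity
  have hcomp : IsCompact (C ∩ Metric.closedBall (0 : Fin 6 → ℝ) 3) :=
    (isCompact_closedBall _ _).inter_left hCc
  have huc := hcomp.uniformContinuousOn_of_continuous (hfc.mono inter_subset_left)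
  rw [Metric.uniformContinuousOn_iff] at huc
  obtain ⟨η, hη, huc⟩ := huc (1 / 32) (by norm_num)
  set δ : ℝ := min (η / 7) (1 / 1000) with hδdef
  have hδ : 0 < δ := by positivity
  have hδ1 : δ ≤ 1 / 1000 := min_le_right _ _
  have hδ2 : 7 * δ ≤ η := by
    have := min_le_left (η / 7) (1 / 1000 : ℝ)
    linarith
  have huc' : ∀ a ∈ C ∩ Metric.closedBall 0 3, ∀ b ∈ C ∩ Metric.closedBall 0 3,
      dist a b < 7 * δ → dist (f a) (f b) < 1 / 32 := fun a ha b hb hab =>
    huc a ha b hb (hab.trans_le hδ2)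
  obtain ⟨B₀, B₁, g₀, g₁, r, hB₀, hB₁, hdis, hP₀, hP₁, hcov, hg₀, hg₁, hper₀, hr, hrp, hper₁⟩ :=
    H δ hδ
  -- compact set
  set K : Set (Fin 6 → ℝ) := Icc 0 1 ∩ Fr C δ with hK
  have hFc : IsClosed (Fr C δ) := by
    have : Fr C δ = ⋂ c ∈ C, {y | δ ≤ dist y c} := by ext y; simp [Fr]
    rw [this]
    exact isClosed_biInter fun c _ => isClosed_le continuous_const (continuous_id.dist continuous_const)
  have hKc : IsCompact K := isCompact_Icc.inter_right hFc
  have hev := eventually_good hB₀ hB₁ hg₀ hg₁ hr hKc (fun y hy => hcov y hy.2)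
  have hlim : Filter.Tendsto (fun n : ℕ => 1 / (n : ℝ)) Filter.atTop (𝓝 0) :=
    tendsto_one_div_atTop_nhds_zero_nat
  have hev1 := hlim.eventually hev
  have hev2 : ∀ᶠ n : ℕ in Filter.atTop, 1 / (n : ℝ) < δ / 10 :=
    hlim.eventually (gt_mem_nhds (by positivity))
  obtain ⟨N, hN1, hN2, hN16⟩ := (hev1.and (hev2.and (Filter.eventually_ge_atTop 16))).exists
  have : NeZero N := ⟨by omega⟩
  have hN : 2 ≤ N := by omega
  have hN' : (16 : ℝ) ≤ N := by exact_mod_cast hN16
  have hNpos : (0 : ℝ) < N := by linarith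
  set h : ℝ := 1 / (N : ℝ) with hh
  have hh0 : 0 < h := by positivity
  have hh1 : h ≤ 1 / 16 := one_div_le_one_div_of_le (by norm_num) hN'
  have habs : |h| = h := abs_of_pos hh0
  have hbox : ∀ z : GG N, pt z ∈ Icc (0 : Fin 6 → ℝ) 1 := fun z =>
    ⟨fun i => pt_nonneg z i, fun i => pt_le_one z i⟩
  have hgood : ∀ z : GG N, pt z ∈ Fr C δ → Good B₀ B₁ g₀ g₁ r h (pt z) := fun z hz =>
    hN1 _ ⟨hbox z, hz⟩
  have hdis' : ∀ y, y ∈ B₀ → y ∈ B₁ → False := fun y h0 h1 => Set.disjoint_left.1 hdis h0 h1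
  -- small lemmas
  have hS0 : ∀ (k : ℕ) (z : GG N) (j : Fin 6), In B₀ (k + 1) z → In (Fr C δ) (k + 1) z →
      Sm (fun z => g₀ (pt z)) (conn 2 4 1) j z := by
    intro k z j h1 h2
    apply small0 hN16 hper₀ z j (h1.step hN hP₀ j).mem
    rcases hgood z h2.mem with hg | hg
    · exact hg.2 j
    · exact (hdis' _ h1.mem (hg.1 (Metric.mem_closedBall_self (by positivity))).1).elim
  have hPq : ∀ q : ℚ, Per {y | y ∈ B₁ ∧ r y = q} := by
    intro q y j
    constructor
    · rintro ⟨h1, h2⟩
      exact ⟨(hP₁ y j).1 h1, (hrp y h1 j).trans h2⟩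
    · rintro ⟨h1, h2⟩
      have h3 := (hP₁ y j).2 h1
      exact ⟨h3, (hrp y h3 j).symm.trans h2⟩
  have hS1 : ∀ (q : ℚ) (k : ℕ) (z : GG N) (j : Fin 6), In {y | y ∈ B₁ ∧ r y = q} (k + 1) z →
      In (Fr C δ) (k + 1) z →
      Sm (fun z => g₁ (pt z)) (A1 q) j z := by
    intro q k z j h1 h2
    have hmem := h1.mem
    rcases hgood z h2.mem with hg | hg
    · exact (hdis' _ (hg.1 (Metric.mem_closedBall_self (by positivity))) hmem.1).elim
    · obtain ⟨hg1, hg2, hg3⟩ := hg
      rw [hmem.2, habs] at hg3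
      have hper : ∀ y ∈ {y | y ∈ B₁ ∧ r y = q}, ∀ j, g₁ (y + ee j) = g₁ y +
          (if j = 3 then ((q.den * y 5 : ℝ) : T1)
          else if j = 4 then ((-(q.num * y 2) : ℝ) : T1) else 0) := by
        rintro y ⟨hy, rfl⟩ j
        exact hper₁ y hy j
      exact small1 hN q hper hg3 z j (h1.step hN (hPq q) j).mem (hg2 j)
  have hκ : |h ^ 2| < 1 / 2 := by
    rw [abs_of_nonneg (by positivity)]; nlinarith
  -- contradiction
  apply combi hS (h ^ 2) (by positivity) (bb (sig C f (3 * δ)) (conn 0 1 1))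
    (b0 (N := N) B₀ g₀) (b1 B₁ g₁ r)
  intro x
  by_cases hx : pt x ∈ Nr C (2 * δ)
  · left
    intro i j hij hne
    have hIn : In (Nr C (3 * δ)) 5 x := by
      intro y hy
      obtain ⟨c, hc, hcd⟩ := hx
      refine ⟨c, hc, ?_⟩
      rw [Metric.mem_closedBall] at hy
      have := dist_triangle y (pt x) c
      push_cast at hy
      rw [← hh] at hy
      linarith
    have hCδ := per_Nr hCp (3 * δ)
    have i1 := fun j => In.step hN hCδ hIn j
    have i2 := fun i j => In.step hN hCδ (i1 i) j
    apply flat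
    · split_ifs
      · exact hκ
      · norm_num
    · rw [curv hN (by decide) 1 hij hne x]
      push_cast
      rw [one_mul]
    · exact smallA hδ hδ1 hN (by linarith) hCp hf huc' _ _ (i1 i).mem (i2 i j).mem
    · exact smallA hδ hδ1 hN (by linarith) hCp hf huc' _ _ hIn.mem (i1 j).mem
    · exact smallA hδ hδ1 hN (by linarith) hCp hf huc' _ _ (i1 j).mem (i2 j i).mem
    · exact smallA hδ hδ1 hN (by linarith) hCp hf huc' _ _ hIn.mem (i1 i).mem
  · right
    have hfar : In (Fr C δ) 5 x := by
      intro y hy c hc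
      rw [Metric.mem_closedBall] at hy
      push_cast at hy
      rw [← hh] at hy
      by_contra hlt
      push Not at hlt
      apply hx
      refine ⟨c, hc, ?_⟩
      have := dist_triangle_left (pt x) c y
      linarith
    have hFp := per_Fr hCp δ
    have f1 := fun j => In.step hN hFp hfar j
    have f2 := fun i j => In.step hN hFp (f1 i) j
    have f3 := fun i j k => In.step hN hFp (f2 i j) k
    rcases hgood x hfar.mem with hg | hg
    · left
      have g5 : In B₀ 5 x := by
        have := hg.1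
        rw [habs] at this
        unfold In
        push_cast
        exact this
      have g1 := fun j => In.step hN hP₀ g5 j
      have g2 := fun i j => In.step hN hP₀ (g1 i) j
      have g3 := fun i j k => In.step hN hP₀ (g2 i j) k
      constructor
      · intro k l i j
        have e : ∀ z : GG N, pt z ∈ B₀ → ∀ j, b1 B₁ g₁ r j z = 0 := by
          intro z hz j
          unfold b1
          rw [if_neg (fun h1 => hdis' _ hz h1)]
        unfold dd
        rw [e _ (g3 k l i).mem, e _ (g2 k l).mem, e _ (g3 k l j).mem, e _ (g2 k l).mem]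
        ring
      · intro k l i j hij hne
        have e : ∀ z : GG N, pt z ∈ B₀ → ∀ j, b0 B₀ g₀ j z =
            bb (fun z => g₀ (pt z)) (conn 2 4 1) j z := by
          intro z hz j
          unfold b0
          rw [if_pos hz]
        unfold dd
        rw [e _ (g3 k l i).mem, e _ (g2 k l).mem, e _ (g3 k l j).mem, e _ (g2 k l).mem]
        apply flat
        · split_ifs
          · exact hκ
          · norm_num
        · rw [curv hN (by decide) 1 hij hne]
          push_cast
          rw [one_mul]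
        · exact hS0 _ _ _ (g3 k l i) (f3 k l i)
        · exact hS0 _ _ _ (g2 k l) (f2 k l)
        · exact hS0 _ _ _ (g3 k l j) (f3 k l j)
        · exact hS0 _ _ _ (g2 k l) (f2 k l)
    · right
      obtain ⟨hg1, hg2, hg3⟩ := hg
      set q := r (pt x) with hq
      have g5 : In {y | y ∈ B₁ ∧ r y = q} 5 x := by
        rw [habs] at hg1
        unfold In
        push_cast
        exact hg1
      have hPQ := hPq q
      have g1 := fun j => In.step hN hPQ g5 j
      have g2 := fun i j => In.step hN hPQ (g1 i) j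
      have g3 := fun i j k => In.step hN hPQ (g2 i j) k
      constructor
      · intro k l i j
        have e : ∀ z : GG N, pt z ∈ B₁ → ∀ j, b0 B₀ g₀ j z = 0 := by
          intro z hz j
          unfold b0
          rw [if_neg (fun h1 => hdis' _ h1 hz)]
        unfold dd
        rw [e _ (g3 k l i).mem.1, e _ (g2 k l).mem.1, e _ (g3 k l j).mem.1, e _ (g2 k l).mem.1]
        ring
      · intro k l i j hij hi4 hj4 hne
        have e : ∀ z : GG N, pt z ∈ {y | y ∈ B₁ ∧ r y = q} → ∀ j, b1 B₁ g₁ r j z =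
            (1 / (q.den : ℝ)) * bb (fun z => g₁ (pt z)) (A1 q) j z := by
          intro z hz j
          unfold b1
          rw [if_pos hz.1, hz.2]
        have hden : (0 : ℝ) < q.den := by exact_mod_cast q.den_pos
        rw [habs] at hg3
        have hfl : (bb (fun z => g₁ (pt z)) (A1 q) j (x + EE N k + EE N l + EE N i) -
            bb (fun z => g₁ (pt z)) (A1 q) j (x + EE N k + EE N l)) -
            (bb (fun z => g₁ (pt z)) (A1 q) i (x + EE N k + EE N l + EE N j) -
            bb (fun z => g₁ (pt z)) (A1 q) i (x + EE N k + EE N l)) =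
            if i = 5 ∧ j = 3 then q.den * h ^ 2 else 0 := by
          apply flat
          · split_ifs
            · rw [abs_of_nonneg (by positivity)]
              have h5 : h * q.den ≤ h * (q.den + |(q.num : ℝ)|) :=
                mul_le_mul_of_nonneg_left (by linarith [abs_nonneg (q.num : ℝ)]) hh0.le
              have h6 : h * q.den < 1 / 16 := by linarith
              have h7 : (q.den : ℝ) * h ^ 2 = (h * q.den) * h := by ring
              rw [h7]
              have h8 : 0 < h * q.den := by positivity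
              nlinarith
            · norm_num
          · exact curv1 hN q hij hi4 hj4 hne _
          · exact hS1 q _ _ _ (g3 k l i) (f3 k l i)
          · exact hS1 q _ _ _ (g2 k l) (f2 k l)
          · exact hS1 q _ _ _ (g3 k l j) (f3 k l j)
          · exact hS1 q _ _ _ (g2 k l) (f2 k l)
        unfold dd
        rw [e _ (g3 k l i).mem, e _ (g2 k l).mem, e _ (g3 k l j).mem, e _ (g2 k l).mem]
        rw [← mul_sub, ← mul_sub, ← mul_sub, hfl]
        split_ifs
        · field_simp
        · simp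

end Pool.Agent.H482.FS
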