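import Pool.Agent.H289R3.FS.Stmts

set_option autoImplicit false
open Set Topology
open scoped ContDiff

namespace Pool.Agent.H482.FS
open Pool.Agent.H289R3.FS

theorem norm_coe_le (x : ℝ) : ‖(x : T1)‖ ≤ |x| := by
  rw [UnitAddCircle.norm_eq]
  simpa using round_le x 0

theorem coe_int (n : ℤ) : ((n : ℝ) : T1) = 0 := by
  rw [AddCircle.coe_eq_zero_iff]
  exact ⟨n, by simp⟩

/-- small real representative -/
theorem exists_sm (t : T1) : ∃ x : ℝ, (x : T1) = t ∧ |x| = ‖t‖ := by
  induction t using QuotientAddGroup.induction_on with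
  | H y =>
    refine ⟨y - round y, ?_, ?_⟩
    · change ((y - (round y : ℝ) : ℝ) : T1) = (y : T1)
      rw [AddCircle.coe_sub, coe_int, sub_zero]
    · change _ = ‖(y : T1)‖
      rw [UnitAddCircle.norm_eq]

noncomputable def sm (t : T1) : ℝ := (exists_sm t).choose

theorem sm_coe (t : T1) : ((sm t : ℝ) : T1) = t := (exists_sm t).choose_spec.1
theorem sm_abs (t : T1) : |sm t| = ‖t‖ := (exists_sm t).choose_spec.2

theorem eq_of_coe {u v : ℝ} (h : (u : T1) = (v : T1)) (hs : |u - v| < 1) : u = v := by
  have h1 : ((u - v : ℝ) : T1) = 0 := by rw [AddCircle.coe_sub, h, sub_self]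
  rw [AddCircle.coe_eq_zero_iff] at h1
  obtain ⟨n, hn⟩ := h1
  have hn' : (n : ℝ) = u - v := by simpa using hn
  rw [← hn'] at hs
  have : |n| < 1 := by exact_mod_cast hs
  have h0 : n = 0 := Int.abs_lt_one_iff.1 this
  subst h0
  simp at hn'
  linarith

section grid
variable {N : ℕ} [NeZero N]

abbrev GG (N : ℕ) := Fin 6 → ZMod N

def EE (N : ℕ) (j : Fin 6) : GG N := Pi.single j 1

noncomputable def pt (x : GG N) : Fin 6 → ℝ := fun i => ((x i).val : ℝ) / N

noncomputable def wr (j : Fin 6) (x : GG N) : ℝ := if (x j).val + 1 = N then 1 else 0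

theorem wr_cases (j : Fin 6) (x : GG N) : wr j x = 0 ∨ wr j x = 1 := by
  unfold wr; split_ifs <;> simp

theorem wr_of_ne {i s : Fin 6} (h : s ≠ i) (x : GG N) : wr s (x + EE N i) = wr s x := by
  unfold wr EE
  simp [Pi.single_apply, h]

theorem pt_of_ne {i p : Fin 6} (h : p ≠ i) (x : GG N) : pt (x + EE N i) p = pt x p := by
  unfold pt EE
  simp [Pi.single_apply, h]

theorem pt_self (hN : 2 ≤ N) (x : GG N) (j : Fin 6) :
    pt (x + EE N j) j = pt x j + 1 / (N : ℝ) - wr j x := by
  have hN0 : (N : ℝ) ≠ 0 := by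
    have : (0 : ℝ) < N := by exact_mod_cast (by omega : 0 < N)
    exact this.ne'
  have h1 : ((x + EE N j) j) = x j + 1 := by simp [EE]
  have hlt : (x j).val < N := ZMod.val_lt _
  have hone : (1 : ZMod N).val = 1 := by
    rw [ZMod.val_one_eq_one_mod, Nat.mod_eq_of_lt (by omega)]
  unfold pt wr
  rw [h1]
  rw [ZMod.val_add, hone]
  split_ifs with h
  · rw [h, Nat.mod_self]
    have : ((x j).val : ℝ) = N - 1 := by
      have : ((x j).val : ℝ) + 1 = N := by exact_mod_cast h
      linarith
    rw [this]
    field_simp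
    simp
  · rw [Nat.mod_eq_of_lt (by omega)]
    push_cast
    field_simp
    ring

theorem pt_add (hN : 2 ≤ N) (x : GG N) (j : Fin 6) :
    pt (x + EE N j) + wr j x • ee j = pt x + (1 / (N : ℝ)) • ee j := by
  funext i
  by_cases h : i = j
  · subst h
    simp only [Pi.add_apply, Pi.smul_apply, ee, Pi.single_eq_same, smul_eq_mul, mul_one]
    have := pt_self hN x i
    linarith
  · simp only [Pi.add_apply, Pi.smul_apply, ee, Pi.single_eq_of_ne h, smul_eq_mul, mul_zero,
      add_zero]
    exact pt_of_ne h x

theorem pt_nonneg (x : GG N) (i : Fin 6) : 0 ≤ pt x i := by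
  unfold pt; positivity

theorem pt_le_one (x : GG N) (i : Fin 6) : pt x i ≤ 1 := by
  unfold pt
  have hlt : (x i).val < N := ZMod.val_lt _
  have : (0 : ℝ) < N := by exact_mod_cast (by omega : 0 < N)
  rw [div_le_one this]
  exact_mod_cast hlt.le

/-- connection -/
noncomputable def conn (p s : Fin 6) (m : ℤ) (j : Fin 6) (z : GG N) : ℝ :=
  m * ((if j = s then wr s z * pt z p else 0) - (if j = p then (1 / (N : ℝ)) * pt z s else 0))

theorem curv (hN : 2 ≤ N) {p s : Fin 6} (hp : p ≠ s) (m : ℤ) {i j : Fin 6} (hi : i ≠ j)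
    (hne : ¬ (i = s ∧ j = p)) (z : GG N) :
    ((conn p s m j (z + EE N i) - conn p s m j z - (conn p s m i (z + EE N j) - conn p s m i z) : ℝ)
      : T1) = (((if i = p ∧ j = s then m * (1 / (N : ℝ)) ^ 2 else 0 : ℝ)) : T1) := by
  by_cases hjs : j = s
  · subst hjs
    by_cases hip : i = p
    · subst hip
      have hw : wr j (z + EE N i) = wr j z := wr_of_ne hi.symm z
      have hpi := pt_self hN z i
      have hpj := pt_self hN z j
      have e1 : conn i j m j (z + EE N i) - conn i j m j z -
          (conn i j m i (z + EE N j) - conn i j m i z) =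
          m * (1 / (N : ℝ)) ^ 2 - m * (wr i z * wr j z) := by
        unfold conn
        simp only [if_true, hi, hi.symm, if_false, hw, hpi, hpj]
        ring
      rw [e1]
      simp only [and_self, if_true]
      rw [AddCircle.coe_sub]
      have : ((m * (wr i z * wr j z) : ℝ) : T1) = 0 := by
        rcases wr_cases i z with h | h <;> rcases wr_cases j z with h' | h' <;> rw [h, h'] <;>
          simp [coe_int]
      rw [this, sub_zero]
    · have hw : wr j (z + EE N i) = wr j z := wr_of_ne hi.symm z
      have hpi : pt (z + EE N i) p = pt z p := pt_of_ne (Ne.symm hip) z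
      have e1 : conn p j m j (z + EE N i) - conn p j m j z -
          (conn p j m i (z + EE N j) - conn p j m i z) = 0 := by
        unfold conn
        simp only [if_true, hi, hip, hp.symm, if_false, hw, hpi]
        ring
      rw [e1]
      simp [hip]
  · have e1 : conn p s m j (z + EE N i) - conn p s m j z -
          (conn p s m i (z + EE N j) - conn p s m i z) = 0 := by
      by_cases hjp : j = p
      · subst hjp
        have h1 : i ≠ s := fun h => hne ⟨h, rfl⟩
        have h2 : pt (z + EE N i) s = pt z s := pt_of_ne (Ne.symm h1) z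
        unfold conn
        simp only [if_true, hi, h1, hp, if_false, h2]
        ring
      · by_cases his : i = s
        · subst his
          have h1 : wr i (z + EE N j) = wr i z := wr_of_ne hi z
          have h2 : pt (z + EE N j) p = pt z p := pt_of_ne (Ne.symm hjp) z
          unfold conn
          simp only [if_true, hjs, hjp, hp.symm, if_false, h1, h2]
          ring
        · by_cases hip : i = p
          · subst hip
            have h2 : pt (z + EE N j) s = pt z s := pt_of_ne (Ne.symm hjs) z
            unfold conn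
            simp only [if_true, hjs, hjp, his, if_false, h2]
            ring
          · unfold conn
            simp only [hjs, hjp, his, hip, if_false]
            ring
    rw [e1]
    have : ¬ (i = p ∧ j = s) := fun h => hjs h.2
    simp [this]

/-- the small real cochain of a circle valued function and a connection -/
noncomputable def bb (τ : GG N → T1) (A : Fin 6 → GG N → ℝ) (j : Fin 6) (z : GG N) : ℝ :=
  sm (τ (z + EE N j) - τ z + (A j z : T1))

/-- smallness of an edge -/
def Sm (τ : GG N → T1) (A : Fin 6 → GG N → ℝ) (j : Fin 6) (z : GG N) : Prop :=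
  ‖τ (z + EE N j) - τ z + (A j z : T1)‖ < 1 / 8

theorem flat (τ : GG N → T1) (A : Fin 6 → GG N → ℝ) (i j : Fin 6) (z : GG N) (κ : ℝ)
    (hκ : |κ| < 1 / 2)
    (hA : ((A j (z + EE N i) - A j z - (A i (z + EE N j) - A i z) : ℝ) : T1) = (κ : T1))
    (h1 : Sm τ A j (z + EE N i)) (h2 : Sm τ A j z) (h3 : Sm τ A i (z + EE N j))
    (h4 : Sm τ A i z) :
    (bb τ A j (z + EE N i) - bb τ A j z) - (bb τ A i (z + EE N j) - bb τ A i z) = κ := by
  unfold Sm at h1 h2 h3 h4
  apply eq_of_coe
  · rw [← hA]
    simp only [AddCircle.coe_sub, bb, sm_coe]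
    have : z + EE N i + EE N j = z + EE N j + EE N i := by abel
    rw [this]
    abel
  · rw [← sm_abs] at h1 h2 h3 h4
    change |bb τ A j (z + EE N i)| < 1 / 8 at h1
    change |bb τ A j z| < 1 / 8 at h2
    change |bb τ A i (z + EE N j)| < 1 / 8 at h3
    change |bb τ A i z| < 1 / 8 at h4
    rw [abs_lt] at *
    constructor <;> linarith [h1.1, h1.2, h2.1, h2.2, h3.1, h3.2, h4.1, h4.2, hκ.1, hκ.2]

end grid

end Pool.Agent.H482.FS
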