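import Pool.Agent.H482.FS.Torus6A

set_option autoImplicit false
open Set Topology
open scoped ContDiff

namespace Pool.Agent.H482.FS
open Pool.Agent.H289R3.FS

section
variable {N : ℕ} [NeZero N]

/-- coboundary -/
def dd (a : Fin 6 → GG N → ℝ) (i j : Fin 6) (x : GG N) : ℝ :=
  (a j (x + EE N i) - a j x) - (a i (x + EE N j) - a i x)

noncomputable def FF (s : Fin 4 → Fin 6) (a : Fin 6 → GG N → ℝ) (c : ℝ) (p q i j : Fin 4)
    (x : GG N) : ℝ :=
  (if i = p ∧ j = q then c else 0) - dd a (s i) (s j) x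

theorem stokes' (hS : Pool.Agent.H289R3.FQ.TaskStokes) (s : Fin 4 → Fin 6) (a b : Fin 6 → GG N → ℝ) (c : ℝ) :
    ∑ x : GG N, (FF s a c 0 1 0 1 x * FF s b c 2 3 2 3 (x + EE N (s 0) + EE N (s 1))
      - FF s a c 0 1 0 2 x * FF s b c 2 3 1 3 (x + EE N (s 0) + EE N (s 2))
      + FF s a c 0 1 0 3 x * FF s b c 2 3 1 2 (x + EE N (s 0) + EE N (s 3))
      + FF s a c 0 1 1 2 x * FF s b c 2 3 0 3 (x + EE N (s 1) + EE N (s 2))
      - FF s a c 0 1 1 3 x * FF s b c 2 3 0 2 (x + EE N (s 1) + EE N (s 3))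
      + FF s a c 0 1 2 3 x * FF s b c 2 3 0 1 (x + EE N (s 2) + EE N (s 3))) =
      Fintype.card (GG N) * c ^ 2 :=
  hS (GG N) (fun i => EE N (s i)) (fun i => a (s i)) (fun i => b (s i)) c

def s3 : Fin 4 → Fin 6 := ![0, 1, 5, 3]
def s4 : Fin 4 → Fin 6 := ![0, 1, 2, 4]

theorem sum_dd (a : Fin 6 → GG N → ℝ) (i j : Fin 6) : ∑ x : GG N, dd a i j x = 0 := by
  unfold dd
  simp only [Finset.sum_sub_distrib]
  have e : ∀ (f : GG N → ℝ) (v : GG N), ∑ x, f (x + v) = ∑ x, f x :=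
    fun f v => Equiv.sum_comp (Equiv.addRight v) f
  rw [e (a j), e (a i)]
  ring

theorem combi (hS : Pool.Agent.H289R3.FQ.TaskStokes) (κ : ℝ) (hκ : κ ≠ 0)
    (α β₀ β₁ : Fin 6 → GG N → ℝ)
    (h : ∀ x : GG N,
      (∀ i j, i ≠ j → ¬ (i = 1 ∧ j = 0) → dd α i j x = if i = 0 ∧ j = 1 then κ else 0) ∨
      ((∀ k l i j, dd β₁ i j (x + EE N k + EE N l) = 0) ∧
        (∀ k l i j, i ≠ j → ¬ (i = 4 ∧ j = 2) →
          dd β₀ i j (x + EE N k + EE N l) = if i = 2 ∧ j = 4 then κ else 0)) ∨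
      ((∀ k l i j, dd β₀ i j (x + EE N k + EE N l) = 0) ∧
        (∀ k l i j, i ≠ j → i ≠ 4 → j ≠ 4 → ¬ (i = 3 ∧ j = 5) →
          dd β₁ i j (x + EE N k + EE N l) = if i = 5 ∧ j = 3 then κ else 0))) : False := by
  have h1 := stokes' hS s3 α β₁ κ
  have h2 := stokes' hS s4 α β₀ κ
  have h3 : ∑ x : GG N, (κ - dd α 0 1 x) * κ = Fintype.card (GG N) * κ ^ 2 := by
    rw [← Finset.sum_mul, Finset.sum_sub_distrib, sum_dd]
    simp
    ring
  have key : ∀ x : GG N,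
      (FF s3 α κ 0 1 0 1 x * FF s3 β₁ κ 2 3 2 3 (x + EE N (s3 0) + EE N (s3 1))
      - FF s3 α κ 0 1 0 2 x * FF s3 β₁ κ 2 3 1 3 (x + EE N (s3 0) + EE N (s3 2))
      + FF s3 α κ 0 1 0 3 x * FF s3 β₁ κ 2 3 1 2 (x + EE N (s3 0) + EE N (s3 3))
      + FF s3 α κ 0 1 1 2 x * FF s3 β₁ κ 2 3 0 3 (x + EE N (s3 1) + EE N (s3 2))
      - FF s3 α κ 0 1 1 3 x * FF s3 β₁ κ 2 3 0 2 (x + EE N (s3 1) + EE N (s3 3))
      + FF s3 α κ 0 1 2 3 x * FF s3 β₁ κ 2 3 0 1 (x + EE N (s3 2) + EE N (s3 3))) +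
      (FF s4 α κ 0 1 0 1 x * FF s4 β₀ κ 2 3 2 3 (x + EE N (s4 0) + EE N (s4 1))
      - FF s4 α κ 0 1 0 2 x * FF s4 β₀ κ 2 3 1 3 (x + EE N (s4 0) + EE N (s4 2))
      + FF s4 α κ 0 1 0 3 x * FF s4 β₀ κ 2 3 1 2 (x + EE N (s4 0) + EE N (s4 3))
      + FF s4 α κ 0 1 1 2 x * FF s4 β₀ κ 2 3 0 3 (x + EE N (s4 1) + EE N (s4 2))
      - FF s4 α κ 0 1 1 3 x * FF s4 β₀ κ 2 3 0 2 (x + EE N (s4 1) + EE N (s4 3))
      + FF s4 α κ 0 1 2 3 x * FF s4 β₀ κ 2 3 0 1 (x + EE N (s4 2) + EE N (s4 3))) =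
      (κ - dd α 0 1 x) * κ := by
    intro x
    have hs3 : ∀ i j : Fin 4, i < j → s3 i ≠ s3 j := by decide
    have hs4 : ∀ i j : Fin 4, i < j → s4 i ≠ s4 j := by decide
    have ha3 : ∀ i j : Fin 4, i < j → ¬ (s3 i = 1 ∧ s3 j = 0) := by decide
    have ha4 : ∀ i j : Fin 4, i < j → ¬ (s4 i = 1 ∧ s4 j = 0) := by decide
    have hb4 : ∀ i j : Fin 4, i < j → ¬ (s4 i = 4 ∧ s4 j = 2) := by decide
    have hb3 : ∀ i j : Fin 4, i < j → ¬ (s3 i = 3 ∧ s3 j = 5) := by decide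
    rcases h x with hA | ⟨hB, hC⟩ | ⟨hB, hC⟩
    · have a3 : ∀ i j : Fin 4, i < j → FF s3 α κ 0 1 i j x = 0 := by
        intro i j hij
        unfold FF
        rw [hA _ _ (hs3 i j hij) (ha3 i j hij)]
        have : (s3 i = 0 ∧ s3 j = 1) ↔ (i = 0 ∧ j = 1) := by
          revert i j; decide
        simp only [this, sub_self]
      have a4 : ∀ i j : Fin 4, i < j → FF s4 α κ 0 1 i j x = 0 := by
        intro i j hij
        unfold FF
        rw [hA _ _ (hs4 i j hij) (ha4 i j hij)]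
        have : (s4 i = 0 ∧ s4 j = 1) ↔ (i = 0 ∧ j = 1) := by
          revert i j; decide
        simp only [this, sub_self]
      rw [a3 0 1 (by decide), a3 0 2 (by decide), a3 0 3 (by decide), a3 1 2 (by decide),
        a3 1 3 (by decide), a3 2 3 (by decide), a4 0 1 (by decide), a4 0 2 (by decide),
        a4 0 3 (by decide), a4 1 2 (by decide), a4 1 3 (by decide), a4 2 3 (by decide)]
      rw [hA 0 1 (by decide) (by decide)]
      simp
    · have b3 : ∀ k l i j, FF s3 β₁ κ 2 3 i j (x + EE N k + EE N l) =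
          if i = 2 ∧ j = 3 then κ else 0 := by
        intro k l i j
        unfold FF
        rw [hB, sub_zero]
      have b4 : ∀ k l, ∀ i j : Fin 4, i < j → FF s4 β₀ κ 2 3 i j (x + EE N k + EE N l) = 0 := by
        intro k l i j hij
        unfold FF
        rw [hC _ _ _ _ (hs4 i j hij) (hb4 i j hij)]
        have : (s4 i = 2 ∧ s4 j = 4) ↔ (i = 2 ∧ j = 3) := by
          revert i j; decide
        simp only [this, sub_self]
      rw [b4 _ _ 0 1 (by decide), b4 _ _ 0 2 (by decide), b4 _ _ 0 3 (by decide),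
        b4 _ _ 1 2 (by decide), b4 _ _ 1 3 (by decide), b4 _ _ 2 3 (by decide)]
      simp only [b3]
      have e1 : FF s3 α κ 0 1 0 1 x = κ - dd α 0 1 x := by simp [FF, s3]
      rw [e1]
      simp
    · have b3 : ∀ k l i j, FF s4 β₀ κ 2 3 i j (x + EE N k + EE N l) =
          if i = 2 ∧ j = 3 then κ else 0 := by
        intro k l i j
        unfold FF
        rw [hB, sub_zero]
      have hs34 : ∀ j : Fin 4, s3 j ≠ 4 := by decide
      have b4 : ∀ k l, ∀ i j : Fin 4, i < j → FF s3 β₁ κ 2 3 i j (x + EE N k + EE N l) = 0 := by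
        intro k l i j hij
        unfold FF
        rw [hC _ _ _ _ (hs3 i j hij) (hs34 i) (hs34 j) (hb3 i j hij)]
        have : (s3 i = 5 ∧ s3 j = 3) ↔ (i = 2 ∧ j = 3) := by
          revert i j; decide
        simp only [this, sub_self]
      rw [b4 _ _ 0 1 (by decide), b4 _ _ 0 2 (by decide), b4 _ _ 0 3 (by decide),
        b4 _ _ 1 2 (by decide), b4 _ _ 1 3 (by decide), b4 _ _ 2 3 (by decide)]
      simp only [b3]
      have e1 : FF s4 α κ 0 1 0 1 x = κ - dd α 0 1 x := by simp [FF, s4]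
      rw [e1]
      simp
  have h4 := congrArg₂ (· + ·) h1 h2
  rw [← Finset.sum_add_distrib, Finset.sum_congr rfl (fun x _ => key x), h3] at h4
  have hc : (0 : ℝ) < Fintype.card (GG N) := by exact_mod_cast Fintype.card_pos
  have : (0 : ℝ) < Fintype.card (GG N) * κ ^ 2 := by positivity
  linarith

end

end Pool.Agent.H482.FS
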